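import Pool.Agent.H.MP_59b15d_al.h76r.Rl
import Pool.Agent.H.MP_59b15d_al.sp.Base

/-!
# Automorphisms of the free group that fix the boundary word and are inner modulo it

`f (dl g) = dl g` and `f z = w z w⁻¹` modulo the normal closure of `dl g`, for all `z`. Then for every
homomorphism `h` which makes `dl g` central, `h (f z) = h (w z w⁻¹) * h (dl g) ^ om (cl z) (cl w)`.
-/

set_option autoImplicit false

namespace Pool.MP_59b15d_al.H62K

open Pool.MP_59b15d_al.H76R Pool.Agent.H.MP_59b15d_al.SP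
open FreeGroup (of)

/-- Upper unitriangular integer matrices of size four. -/
@[ext] structure U4 where
  x12 : ℤ
  x23 : ℤ
  x34 : ℤ
  x13 : ℤ
  x24 : ℤ
  x14 : ℤ

namespace U4

instance : Mul U4 :=
  ⟨fun A B => ⟨A.x12 + B.x12, A.x23 + B.x23, A.x34 + B.x34, A.x13 + B.x13 + A.x12 * B.x23,
    A.x24 + B.x24 + A.x23 * B.x34, A.x14 + B.x14 + A.x12 * B.x24 + A.x13 * B.x34⟩⟩

instance : One U4 := ⟨⟨0, 0, 0, 0, 0, 0⟩⟩

instance : Inv U4 :=
  ⟨fun A => ⟨-A.x12, -A.x23, -A.x34, -A.x13 + A.x12 * A.x23, -A.x24 + A.x23 * A.x34,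
    -A.x14 + A.x12 * A.x24 + A.x13 * A.x34 - A.x12 * A.x23 * A.x34⟩⟩

lemma mul_def (A B : U4) : A * B = ⟨A.x12 + B.x12, A.x23 + B.x23, A.x34 + B.x34,
    A.x13 + B.x13 + A.x12 * B.x23, A.x24 + B.x24 + A.x23 * B.x34,
    A.x14 + B.x14 + A.x12 * B.x24 + A.x13 * B.x34⟩ := rfl

lemma one_def : (1 : U4) = ⟨0, 0, 0, 0, 0, 0⟩ := rfl

lemma inv_def (A : U4) : A⁻¹ = ⟨-A.x12, -A.x23, -A.x34, -A.x13 + A.x12 * A.x23,
    -A.x24 + A.x23 * A.x34,
    -A.x14 + A.x12 * A.x24 + A.x13 * A.x34 - A.x12 * A.x23 * A.x34⟩ := rfl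

instance : Group U4 :=
  Group.ofLeftAxioms
    (fun A B C => by
      simp only [mul_def]
      ext <;> ring)
    (fun A => by
      simp only [mul_def, one_def]
      ext <;> ring)
    (fun A => by
      simp only [mul_def, one_def, inv_def]
      ext <;> ring)

/-- The entry `34`. -/
def p34 : U4 →* Multiplicative ℤ where
  toFun A := Multiplicative.ofAdd A.x34
  map_one' := rfl
  map_mul' A B := rfl

/-- The centre. -/
def Zc : Subgroup U4 where
  carrier := {A | A.x12 = 0 ∧ A.x23 = 0 ∧ A.x34 = 0 ∧ A.x13 = 0 ∧ A.x24 = 0}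
  mul_mem' := by
    rintro A B ⟨a1, a2, a3, a4, a5⟩ ⟨b1, b2, b3, b4, b5⟩
    simp [mul_def, a1, a2, a3, a4, a5, b1, b2, b3, b4, b5]
  one_mem' := by simp [one_def]
  inv_mem' := by
    rintro A ⟨a1, a2, a3, a4, a5⟩
    simp [inv_def, a1, a2, a3, a4, a5]

instance : (Zc).Normal := by
  constructor
  rintro A ⟨a1, a2, a3, a4, a5⟩ B
  change _ ∧ _
  simp only [mul_def, inv_def, a1, a2, a3, a4, a5]
  refine ⟨by ring, by ring, by ring, by ring, by ring⟩

end U4

open U4

variable {g : ℕ}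

/-- The normal closure of the commutators with `dl g`. -/
def R1 (g : ℕ) : Subgroup (Fr g) :=
  Subgroup.normalClosure {y | ∃ x : Fr g, y = dl g * x * (dl g)⁻¹ * x⁻¹}

instance : (R1 g).Normal := Subgroup.normalClosure_normal

lemma R1_le {Γ : Type*} [Group Γ] (h : Fr g →* Γ) (Z : Subgroup Γ) [Z.Normal]
    (hc : ∀ x, h (dl g) * h x * (h (dl g))⁻¹ * (h x)⁻¹ ∈ Z) {s : Fr g} (hs : s ∈ R1 g) :
    h s ∈ Z := by
  have h1 : R1 g ≤ Z.comap h := by
    refine Subgroup.normalClosure_le_normal ?_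
    rintro _ ⟨x, rfl⟩
    change h _ ∈ Z
    rw [map_mul, map_mul, map_mul, map_inv, map_inv]
    exact hc x
  exact h1 hs

/-- Elements of the normal closure of `dl g`. -/
lemma mem_ncl {r : Fr g} (hr : r ∈ Subgroup.normalClosure {dl (n := g) g}) :
    ∃ k : ℤ, ∃ s ∈ R1 g, r = dl g ^ k * s := by
  let π := QuotientGroup.mk' (R1 g)
  have hcomm : ∀ q, π (dl g) * q = q * π (dl g) := by
    intro q
    obtain ⟨x, rfl⟩ := QuotientGroup.mk'_surjective (R1 g) q
    have h1 : π (dl g * x * (dl g)⁻¹ * x⁻¹) = 1 := by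
      rw [QuotientGroup.mk'_apply, QuotientGroup.eq_one_iff]
      exact Subgroup.subset_normalClosure ⟨x, rfl⟩
    rw [map_mul, map_mul, map_mul, map_inv, map_inv] at h1
    exact mul_inv_eq_iff_eq_mul.1 (mul_inv_eq_one.1 h1)
  have hn : (Subgroup.zpowers (π (dl g))).Normal := by
    constructor
    rintro _ ⟨k, rfl⟩ q
    refine ⟨k, ?_⟩
    have h2 : Commute q (π (dl g) ^ k) := Commute.zpow_right (hcomm q).symm k
    change π (dl g) ^ k = q * π (dl g) ^ k * q⁻¹
    rw [h2.eq, mul_inv_cancel_right]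
  have h3 : Subgroup.normalClosure {dl (n := g) g} ≤ (Subgroup.zpowers (π (dl g))).comap π := by
    refine Subgroup.normalClosure_le_normal ?_
    rintro _ rfl
    exact ⟨1, zpow_one _⟩
  obtain ⟨k, hk⟩ := h3 hr
  change π (dl g) ^ k = π r at hk
  refine ⟨k, (dl g ^ k)⁻¹ * r, ?_, by group⟩
  rw [← map_zpow, QuotientGroup.mk'_apply, QuotientGroup.mk'_apply, QuotientGroup.eq] at hk
  exact hk

/-- The class of a word. -/
def clH (g : ℕ) : Fr g →* Multiplicative (V g) :=
  FreeGroup.lift (Sum.elim (fun i => Multiplicative.ofAdd (e i)) fun i => Multiplicative.ofAdd (f i))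

/-- The class of a word. -/
def cl (z : Fr g) : V g := Multiplicative.toAdd (clH g z)

lemma cl_mul (x y : Fr g) : cl (x * y) = cl x + cl y := by rw [cl, map_mul]; rfl
lemma cl_one : cl (1 : Fr g) = 0 := by rw [cl, map_one]; rfl
lemma cl_a (i : Fin g) : cl (of (Sum.inl i)) = e i := by
  rw [cl, clH, FreeGroup.lift_apply_of]; rfl
lemma cl_b (i : Fin g) : cl (of (Sum.inr i)) = f i := by
  rw [cl, clH, FreeGroup.lift_apply_of]; rfl

/-- The test homomorphism. -/
def tst (i : Fin g) (s : Fin g ⊕ Fin g) : Fr g →* U4 :=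
  FreeGroup.lift fun x => if x = Sum.inl i then ⟨1, 0, 0, 0, 0, 0⟩ else
    if x = Sum.inr i then ⟨0, 1, 0, 0, 0, 0⟩ else if x = s then ⟨0, 0, 1, 0, 0, 0⟩ else 1

/-- The commutator of one handle. -/
lemma tst_dl (i : Fin g) (s : Fin g ⊕ Fin g) (hs1 : s ≠ Sum.inl i) (hs2 : s ≠ Sum.inr i)
    (F : Fr g →* Fr g) (k c : Fin g ⊕ Fin g → ℤ)
    (hF : ∀ x, tst i s (F (of x)) = tst i s (of x) * ⟨0, 0, 0, k x, 0, c x⟩) (m : ℕ) (hm : m ≤ g) :
    tst i s (F (dl m)) = ⟨0, 0, 0, if (i : ℕ) < m then 1 else 0, 0,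
      Sum.elim (fun j : Fin g => if (j : ℕ) < m then -k (Sum.inr j) else 0)
        (fun j : Fin g => if (j : ℕ) < m then k (Sum.inl j) else 0) s⟩ := by
  induction m with
  | zero =>
    rw [dl, map_one, map_one, one_def]
    rcases s with j | j <;> simp
  | succ m ih =>
    rw [dl_succ m hm, map_mul, map_mul, ih (by omega)]
    have e1 : tst i s (F (kk ⟨m, hm⟩)) =
        (tst i s (of (Sum.inl ⟨m, hm⟩)) * ⟨0, 0, 0, k (Sum.inl ⟨m, hm⟩), 0, c (Sum.inl ⟨m, hm⟩)⟩) *
        (tst i s (of (Sum.inr ⟨m, hm⟩)) * ⟨0, 0, 0, k (Sum.inr ⟨m, hm⟩), 0, c (Sum.inr ⟨m, hm⟩)⟩) *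
        (tst i s (of (Sum.inl ⟨m, hm⟩)) *
          ⟨0, 0, 0, k (Sum.inl ⟨m, hm⟩), 0, c (Sum.inl ⟨m, hm⟩)⟩)⁻¹ *
        (tst i s (of (Sum.inr ⟨m, hm⟩)) *
          ⟨0, 0, 0, k (Sum.inr ⟨m, hm⟩), 0, c (Sum.inr ⟨m, hm⟩)⟩)⁻¹ := by
      rw [kk, map_mul, map_mul, map_mul, map_mul, map_mul, map_mul, map_inv, map_inv, map_inv,
        map_inv, hF, hF]
    rw [e1]
    simp only [tst, FreeGroup.lift_apply_of]
    by_cases hi : i = ⟨m, hm⟩
    · subst hi
      rcases s with j | j
      · have hj : j ≠ ⟨m, hm⟩ := fun h => hs1 (by rw [h])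
        have hj' : (j : ℕ) ≠ m := fun h => hj (Fin.ext h)
        have hj2 : ((j : ℕ) < m + 1) = ((j : ℕ) < m) := by
          rw [eq_iff_iff]; omega
        simp only [mul_def, inv_def, if_true, reduceCtorEq, if_false, Sum.elim_inl, hj2]
        ext <;> simp <;> ring
      · have hj : j ≠ ⟨m, hm⟩ := fun h => hs2 (by rw [h])
        have hj' : (j : ℕ) ≠ m := fun h => hj (Fin.ext h)
        have hj2 : ((j : ℕ) < m + 1) = ((j : ℕ) < m) := by
          rw [eq_iff_iff]; omega
        simp only [mul_def, inv_def, if_true, reduceCtorEq, if_false, Sum.elim_inr, hj2]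
        ext <;> simp <;> ring
    · have hi1 : (⟨m, hm⟩ : Fin g) ≠ i := fun h => hi h.symm
      have hi' : (i : ℕ) ≠ m := fun h => hi (Fin.ext h)
      have hi2 : ((i : ℕ) < m + 1) = ((i : ℕ) < m) := by
        rw [eq_iff_iff]; omega
      rcases s with j | j
      · by_cases hj : j = ⟨m, hm⟩
        · subst hj
          simp only [mul_def, inv_def, one_def, if_true, reduceCtorEq, if_false, Sum.elim_inl,
            Sum.inl.injEq, Sum.inr.injEq, hi1, hi2]
          ext <;> simp <;> ring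
        · have hj1 : (⟨m, hm⟩ : Fin g) ≠ j := fun h => hj h.symm
          have hj' : (j : ℕ) ≠ m := fun h => hj (Fin.ext h)
          have hj2 : ((j : ℕ) < m + 1) = ((j : ℕ) < m) := by
            rw [eq_iff_iff]; omega
          simp only [mul_def, inv_def, one_def, reduceCtorEq, if_false, Sum.elim_inl,
            Sum.inl.injEq, Sum.inr.injEq, hi1, hi2, hj1, hj2]
          ext <;> simp <;> ring
      · by_cases hj : j = ⟨m, hm⟩
        · subst hj
          simp only [mul_def, inv_def, one_def, if_true, reduceCtorEq, if_false, Sum.elim_inr,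
            Sum.inl.injEq, Sum.inr.injEq, hi1, hi2]
          ext <;> simp <;> ring
        · have hj1 : (⟨m, hm⟩ : Fin g) ≠ j := fun h => hj h.symm
          have hj' : (j : ℕ) ≠ m := fun h => hj (Fin.ext h)
          have hj2 : ((j : ℕ) < m + 1) = ((j : ℕ) < m) := by
            rw [eq_iff_iff]; omega
          simp only [mul_def, inv_def, one_def, reduceCtorEq, if_false, Sum.elim_inr,
            Sum.inl.injEq, Sum.inr.injEq, hi1, hi2, hj1, hj2]
          ext <;> simp <;> ring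

lemma cl_inv (x : Fr g) : cl x⁻¹ = -cl x := by rw [cl, map_inv]; rfl

/-- The entry `34` of the test homomorphism is a coordinate of the class. -/
lemma x34_tst (i : Fin g) (s : Fin g ⊕ Fin g) (hs1 : s ≠ Sum.inl i) (hs2 : s ≠ Sum.inr i)
    (w : Fr g) : (tst i s w).x34 =
      Sum.elim (fun j : Fin g => (cl w j).1) (fun j : Fin g => (cl w j).2) s := by
  induction w using fr_induction with
  | h1 =>
    rw [map_one, cl_one]
    rcases s with j | j <;> rfl
  | ha k =>
    rw [tst, FreeGroup.lift_apply_of, cl_a]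
    by_cases hk : k = i
    · subst hk
      rw [if_pos rfl]
      rcases s with j | j
      · have hj : j ≠ k := fun h => hs1 (by rw [h])
        simp [e_ne hj]
      · have hj : j ≠ k := fun h => hs2 (by rw [h])
        simp [e_ne hj]
    · rw [if_neg (fun h => hk (Sum.inl.inj h)), if_neg (by simp)]
      rcases s with j | j
      · by_cases hj : k = j
        · subst hj
          simp [e_self]
        · rw [if_neg (fun h => hj (Sum.inl.inj h))]
          simp [one_def, e_ne (Ne.symm hj)]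
      · rw [if_neg (by simp)]
        by_cases hj : j = k
        · subst hj
          simp [one_def, e_self]
        · simp [one_def, e_ne hj]
  | hb k =>
    rw [tst, FreeGroup.lift_apply_of, cl_b, if_neg (by simp)]
    by_cases hk : k = i
    · subst hk
      rw [if_pos rfl]
      rcases s with j | j
      · have hj : j ≠ k := fun h => hs1 (by rw [h])
        simp [f_ne hj]
      · have hj : j ≠ k := fun h => hs2 (by rw [h])
        simp [f_ne hj]
    · rw [if_neg (fun h => hk (Sum.inr.inj h))]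
      rcases s with j | j
      · rw [if_neg (by simp)]
        by_cases hj : j = k
        · subst hj
          simp [one_def, f_self]
        · simp [one_def, f_ne hj]
      · by_cases hj : k = j
        · subst hj
          simp [f_self]
        · rw [if_neg (fun h => hj (Sum.inr.inj h))]
          simp [one_def, f_ne (Ne.symm hj)]
  | hm x y hx hy =>
    rw [map_mul, cl_mul]
    change (tst i s x).x34 + (tst i s y).x34 = _
    rw [hx, hy]
    rcases s with j | j <;> rfl
  | hi x hx =>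
    rw [map_inv, cl_inv]
    change -(tst i s x).x34 = _
    rw [hx]
    rcases s with j | j <;> rfl

lemma zpow13 (k : ℤ) : (⟨0, 0, 0, 1, 0, 0⟩ : U4) ^ k = ⟨0, 0, 0, k, 0, 0⟩ := by
  have h0 : ∀ n : ℕ, (⟨0, 0, 0, 1, 0, 0⟩ : U4) ^ n = ⟨0, 0, 0, n, 0, 0⟩ := by
    intro n
    induction n with
    | zero => rfl
    | succ n ih => rw [pow_succ, ih, mul_def]; simp
  obtain ⟨n, rfl | rfl⟩ := k.eq_nat_or_neg
  · rw [zpow_natCast, h0]
  · rw [zpow_neg, zpow_natCast, h0, inv_def]; simp

/-- Lemma K, for the automorphism `z ↦ w⁻¹ (F z) w`. -/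
theorem lemK' (hg : 2 ≤ g) (F : Fr g →* Fr g) (w : Fr g) (hd : F (dl g) = w⁻¹ * dl g * w)
    (hR : ∀ z, z⁻¹ * F z ∈ Subgroup.normalClosure {dl (n := g) g})
    {Γ : Type*} [Group Γ] (h : Fr g →* Γ) (hc : ∀ x, h (dl g) * h x = h x * h (dl g)) (z : Fr g) :
    h (F z) = h z * h (dl g) ^ om (cl z) (cl w) := by
  choose k t ht hkt using fun x => mem_ncl (hR (of x))
  have hFx : ∀ x, F (of x) = of x * (dl g ^ k x * t x) := by
    intro x
    rw [← hkt]
    group
  -- the exponents
  have key : ∀ (i : Fin g) (s : Fin g ⊕ Fin g), s ≠ Sum.inl i → s ≠ Sum.inr i →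
      Sum.elim (fun j : Fin g => (cl w j).1) (fun j : Fin g => (cl w j).2) s =
        Sum.elim (fun j : Fin g => -k (Sum.inr j)) (fun j : Fin g => k (Sum.inl j)) s := by
    intro i s hs1 hs2
    have hdl : tst i s (dl g) = ⟨0, 0, 0, 1, 0, 0⟩ := by
      have h1 := tst_dl i s hs1 hs2 (MonoidHom.id _) (fun _ => 0) (fun _ => 0)
        (fun x => by
          rw [MonoidHom.id_apply]
          exact (mul_one (tst i s (of x))).symm) g le_rfl
      rw [MonoidHom.id_apply, if_pos i.2] at h1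
      rw [h1]
      rcases s with j | j <;> simp
    have hZ : ∀ x, tst i s (t x) ∈ U4.Zc := by
      intro x
      refine R1_le (tst i s) U4.Zc ?_ (ht x)
      intro y
      rw [hdl]
      generalize tst i s y = X
      change _ ∧ _
      simp only [mul_def, inv_def]
      refine ⟨by ring, by ring, by ring, by ring, by ring⟩
    have hF2 : ∀ x, tst i s (F (of x)) =
        tst i s (of x) * ⟨0, 0, 0, k x, 0, (tst i s (t x)).x14⟩ := by
      intro x
      rw [hFx, map_mul, map_mul, map_zpow, hdl, zpow13]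
      congr 1
      obtain ⟨h1, h2, h3, h4, h5⟩ := hZ x
      rw [mul_def]
      ext <;> simp [h1, h2, h3, h4, h5]
    have h1 := tst_dl i s hs1 hs2 F k (fun x => (tst i s (t x)).x14) hF2 g le_rfl
    rw [hd, map_mul, map_mul, map_inv, hdl, if_pos i.2] at h1
    have h2 := congrArg U4.x14 h1
    have h3 : ((tst i s w)⁻¹ * ⟨0, 0, 0, 1, 0, 0⟩ * tst i s w).x14 = (tst i s w).x34 := by
      generalize tst i s w = X
      simp only [mul_def, inv_def]
      ring
    rw [h3, x34_tst i s hs1 hs2] at h2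
    rw [h2]
    rcases s with j | j
    · simp
    · simp
  have hother : ∀ j : Fin g, ∃ i : Fin g, i ≠ j := by
    intro j
    by_cases hj : (j : ℕ) = 0
    · exact ⟨⟨1, by omega⟩, fun h => by rw [← h] at hj; simp at hj⟩
    · exact ⟨⟨0, by omega⟩, fun h => by rw [← h] at hj; simp at hj⟩
  have hk : ∀ x, k x = om (cl (of x)) (cl w) := by
    intro x
    rcases x with j | j
    · obtain ⟨i, hi⟩ := hother j
      have h1 := key i (Sum.inr j) (by simp) (fun h => hi (Sum.inr.inj h).symm)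
      rw [cl_a, om_e']
      simpa using h1.symm
    · obtain ⟨i, hi⟩ := hother j
      have h1 := key i (Sum.inl j) (fun h => hi (Sum.inl.inj h).symm) (by simp)
      rw [cl_b, om_f']
      simp only [Sum.elim_inl] at h1
      rw [h1]
      ring
  -- the values of `h`
  have hcz : ∀ (x : Fr g) (l : ℤ), h (dl g) ^ l * h x = h x * h (dl g) ^ l := by
    intro x l
    exact (Commute.zpow_left (hc x) l).eq
  have hgen : ∀ x, h (F (of x)) = h (of x) * h (dl g) ^ om (cl (of x)) (cl w) := by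
    intro x
    have h1 : h (t x) = 1 := by
      have h2 : h (t x) ∈ (⊥ : Subgroup Γ) := by
        refine R1_le h ⊥ ?_ (ht x)
        intro y
        rw [Subgroup.mem_bot, hc y]
        group
      exact Subgroup.mem_bot.1 h2
    rw [hFx, map_mul, map_mul, map_zpow, h1, mul_one, hk]
  induction z using fr_induction with
  | h1 => rw [map_one, map_one, cl_one, om_zero_left, zpow_zero, mul_one]
  | ha i => exact hgen _
  | hb i => exact hgen _
  | hm x y hx hy =>
    rw [map_mul, map_mul, map_mul, hx, hy, cl_mul, om_add_left, zpow_add]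
    have h1 := hcz y (om (cl x) (cl w))
    calc h x * h (dl g) ^ om (cl x) (cl w) * (h y * h (dl g) ^ om (cl y) (cl w))
        = h x * (h (dl g) ^ om (cl x) (cl w) * h y) * h (dl g) ^ om (cl y) (cl w) := by group
      _ = _ := by rw [h1]; group
  | hi x hx =>
    rw [map_inv, map_inv, map_inv, hx, cl_inv, om_neg_left, mul_inv_rev, zpow_neg]
    have h1 := hcz x⁻¹ (om (cl x) (cl w))
    rw [map_inv] at h1
    rw [eq_mul_inv_iff_mul_eq, mul_assoc, inv_mul_eq_iff_eq_mul]
    have h2 := hcz x (om (cl x) (cl w))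
    first
      | exact h1.symm
      | (rw [← h2]; group)
      | (rw [h2]; group)

/-- **Lemma K.** -/
theorem lemK (hg : 2 ≤ g) (F : Fr g →* Fr g) (hd : F (dl g) = dl g) (w : Fr g)
    (hR : ∀ z, (w * z * w⁻¹)⁻¹ * F z ∈ Subgroup.normalClosure {dl (n := g) g})
    {Γ : Type*} [Group Γ] (h : Fr g →* Γ) (hc : ∀ x, h (dl g) * h x = h x * h (dl g)) (z : Fr g) :
    h (F z) = h (w * z * w⁻¹) * h (dl g) ^ om (cl z) (cl w) := by
  let F' : Fr g →* Fr g := (MulAut.conj w⁻¹).toMonoidHom.comp F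
  have hF' : ∀ z, F' z = w⁻¹ * F z * w := by
    intro z
    change w⁻¹ * F z * w⁻¹⁻¹ = _
    rw [inv_inv]
  have h1 := lemK' hg F' w (by rw [hF', hd]) (fun z => by
    rw [hF']
    have h2 := (Subgroup.normalClosure_normal (s := {dl (n := g) g})).conj_mem _ (hR z) w⁻¹
    have h3 : z⁻¹ * (w⁻¹ * F z * w) = w⁻¹ * ((w * z * w⁻¹)⁻¹ * F z) * w⁻¹⁻¹ := by group
    rw [h3]
    exact h2) h hc z
  have h4 : F z = w * F' z * w⁻¹ := by rw [hF']; group
  have h5 : h (dl g) ^ om (cl z) (cl w) * h w⁻¹ = h w⁻¹ * h (dl g) ^ om (cl z) (cl w) :=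
    (Commute.zpow_left (hc w⁻¹) _).eq
  rw [h4, map_mul, map_mul, h1, map_mul, map_mul]
  calc h w * (h z * h (dl g) ^ om (cl z) (cl w)) * h w⁻¹
      = h w * h z * (h (dl g) ^ om (cl z) (cl w) * h w⁻¹) := by group
    _ = _ := by rw [h5]; group

end Pool.MP_59b15d_al.H62K
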